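import Mathlib
import Pool.Agent.HuaOne84.Poly

/-!
Two points of a Hua system, any field of scalars: products of linear polynomials.
-/

set_option autoImplicit false

open Polynomial

namespace Pool.Agent.HuaTwoP96

open Pool.Agent.HuaTop84 Pool.Agent.HuaVal Pool.Agent.HuaOne84 Pool.Agent.HuaOne84.HS

variable {A : Type} [AddCommGroup A] {H : HS A}
variable {K : Type} [Field K] [Module K A]

/-- The element `f(x)` is not zero and the multiplication rule holds for it. -/
def Good (K : Type) [Field K] [Module K A] (H : HS A) (x : A) (f : K[X]) : Prop :=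
  psi K H x f ≠ 0 ∧ ∀ g : K[X], H.U (psi K H x f) (psi K H x g) = psi K H x (f ^ 2 * g)

variable (S : H.Scal K) {x : A} (hx : ∀ s : K, x - s • H.one ≠ 0)

include S in
theorem good_C {c : K} (hc : c ≠ 0) : Good K H x (C c) := by
  refine ⟨by rw [psi_C]; exact smul_ne_zero hc H.one_ne, fun g => ?_⟩
  rw [psi_C, S.U_smul_left, H.U_one, sq, mul_assoc, psi_C_mul, psi_C_mul, smul_smul]

include S hx in
theorem good_lin (s : K) : Good K H x (X - C s) := by
  refine ⟨by rw [psi_X_sub_C]; exact hx s, fun g => ?_⟩
  rw [psi_X_sub_C]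
  exact Am_psi S hx s g

include S in
theorem good_smul {f : K[X]} (hf : Good K H x f) {c : K} (hc : c ≠ 0) :
    Good K H x (C c * f) := by
  refine ⟨by rw [psi_C_mul]; exact smul_ne_zero hc hf.1, fun g => ?_⟩
  rw [psi_C_mul, S.U_smul_left, hf.2, mul_pow, mul_assoc, ← C_pow, psi_C_mul, sq c]

/-- squares of good elements -/
theorem good_sq {f k : K[X]} (hf : Good K H x f) (hk : Good K H x k) :
    Good K H x (f ^ 2 * k) := by
  constructor
  · rw [← hf.2 k]
    intro h
    exact hk.1 (H.U_inj hf.1 h)
  · intro g
    rw [← hf.2 k, H.U_U, hf.2, hk.2, hf.2]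
    congr 1
    ring

include S in
theorem good_one : Good K H x (1 : K[X]) := by
  have := good_C (x := x) S (one_ne_zero : (1 : K) ≠ 0)
  rwa [C_1] at this

include S in
/-- compositions of the maps of good elements with the same product agree -/
theorem comp_eq {a b c d : K[X]} (ha : Good K H x a) (hb : Good K H x b) (hc : Good K H x c)
    (hd : Good K H x d) (h : (a * b) ^ 2 = (c * d) ^ 2) {z : A} (hz : H.Gen K x z) :
    H.U (psi K H x a) (H.U (psi K H x b) z) = H.U (psi K H x c) (H.U (psi K H x d) z) := by
  have h1 := (SP.ofU S ha.1).comp (SP.ofU S hb.1)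
  have h2 := (SP.ofU S hc.1).comp (SP.ofU S hd.1)
  have key : ∀ g : K[X], H.U (psi K H x a) (H.U (psi K H x b) (psi K H x g)) =
      H.U (psi K H x c) (H.U (psi K H x d) (psi K H x g)) := by
    intro g
    rw [hb.2, ha.2, hd.2, hc.2]
    congr 1
    have e1 : a ^ 2 * (b ^ 2 * g) = (a * b) ^ 2 * g := by ring
    have e2 : c ^ 2 * (d ^ 2 * g) = (c * d) ^ 2 * g := by ring
    rw [e1, e2, h]
  refine rigid h1 h2 ?_ ?_ hz
  · have := key 1
    rwa [psi_one] at this
  · have := key X
    rwa [psi_X] at this

include S in
/-- The map of a product of good elements. -/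
theorem U_mul' {b c : K[X]} (hb : Good K H x b) (hc : Good K H x c) (hbc : Good K H x (b * c))
    {z : A} (hz : H.Gen K x z) :
    H.U (psi K H x b) (H.U (psi K H x c) z) = H.U (psi K H x (b * c)) z := by
  have h := comp_eq (a := b) (b := c) (c := b * c) (d := 1) S hb hc hbc (good_one S) (by ring) hz
  rwa [psi_one, H.U_one] at h

include S in
/-- The main step for two different factors. -/
theorem good_two {w l l' : K[X]} {t : K} (ht : t ≠ 0) (htl : l - l' = C t)
    (hl : Good K H x l) (hl' : Good K H x l')
    (hw : Good K H x w) (hwl : Good K H x (w * l)) (hwl' : Good K H x (w * l')) :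
    Good K H x (w * l * l') := by
  set a := psi K H x (w * l) with ha
  set b := psi K H x (-(w * l')) with hb
  have hb' : b = - psi K H x (w * l') := by rw [hb, map_neg]
  have hbne : b ≠ 0 := by rw [hb']; exact neg_ne_zero.mpr hwl'.1
  have hUb : ∀ z, H.U b z = H.U (psi K H x (w * l')) z := by
    intro z; rw [hb', U_neg]
  have hab : a + b = t • psi K H x w := by
    rw [ha, hb, ← map_add, ← psi_C_mul]
    congr 1
    have e : w * l + -(w * l') = (l - l') * w := by ring
    rw [e, htl]
  have habne : a + b ≠ 0 := by rw [hab]; exact smul_ne_zero ht hw.1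
  set c := H.inv a + H.inv b with hc
  have hsum : ∀ z, t • t • H.U (psi K H x w) z = H.U a (H.U c (H.U b z)) := by
    intro z
    rw [hc, ← H.sum a b z hwl.1 hbne habne, hab, S.U_smul_left, smul_smul]
  have hcne : c ≠ 0 := by
    intro h
    have h1 := hsum (psi K H x 1)
    rw [h, show ∀ z, H.U 0 z = 0 from fun z => by rw [H.U_zero]; rfl, map_zero, hw.2,
      smul_smul] at h1
    have h2 := (smul_eq_zero.mp h1).resolve_left (mul_ne_zero ht ht)
    rw [← hw.2] at h2
    have h3 := H.U_inj hw.1 h2
    rw [psi_one] at h3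
    exact H.one_ne h3
  have hainv : H.Gen K x (H.inv a) := (Gen.psi _).inv
  have hbinv : H.Gen K x (H.inv b) := (Gen.psi _).inv
  -- `U l' (U a c)`
  have hkey : H.U (psi K H x l') (H.U a c) = psi K H x (C (-t) * (w * l * l')) := by
    rw [hc, map_add, map_add, H.U_self]
    have h1 : H.U (psi K H x l') (H.U a (H.inv b)) = H.U (psi K H x l) (H.U b (H.inv b)) := by
      rw [hUb, ha]
      exact comp_eq S hl' hwl hl hwl' (by ring) hbinv
    rw [h1, H.U_self, ha, hb, hl'.2, hl.2, ← map_add]
    congr 1
    have e : C (-t) = l' - l := by rw [C_neg, ← htl]; ring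
    rw [e]
    ring
  have hmt : (-t) ≠ 0 := neg_ne_zero.mpr ht
  constructor
  · intro h
    rw [psi_C_mul, h, smul_zero] at hkey
    exact hcne (H.U_inj hwl.1 (H.U_inj hl'.1 hkey))
  · intro g
    have h1 : H.U (psi K H x (C (-t) * (w * l * l'))) (psi K H x g) =
        (t * t) • psi K H x ((w * l * l') ^ 2 * g) := by
      rw [← hkey, H.U_U, H.U_U, hl'.2, ha, hwl.2]
      have e1 : (w * l) ^ 2 * (l' ^ 2 * g) = (w * l') ^ 2 * (l ^ 2 * g) := by ring
      rw [e1, ← hwl'.2, ← hUb, ← ha, ← hsum, hw.2, ← psi_C_mul, ← psi_C_mul, hl'.2,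
        ← psi_C_mul]
      congr 1
      rw [C_mul]
      ring
    rw [psi_C_mul, S.U_smul_left] at h1
    have h2 : (-t) * (-t) = t * t := by ring
    rw [h2] at h1
    exact smul_right_injective A (mul_ne_zero ht ht) h1

include S hx in
/-- Products of linear polynomials are good. -/
theorem good_prod : ∀ (n : ℕ) (s : Multiset K), s.card = n →
    Good K H x (s.map (fun r => X - C r)).prod := by
  intro n
  induction n using Nat.strong_induction_on with
  | _ n ih =>
    intro s hs
    classical
    by_cases hnd : s.Nodup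
    · rcases Nat.lt_or_ge n 2 with hn | hn
      · rcases Nat.lt_or_ge n 1 with hn1 | hn1
        · have : s = 0 := Multiset.card_eq_zero.mp (by omega)
          rw [this]
          simpa using good_one (x := x) S
        · have : s.card = 1 := by omega
          obtain ⟨a, rfl⟩ := Multiset.card_eq_one.mp this
          simpa using good_lin S hx a
      · obtain ⟨r, hr⟩ := Multiset.card_pos_iff_exists_mem.mp (by omega : 0 < s.card)
        obtain ⟨s1, rfl⟩ := Multiset.exists_cons_of_mem hr
        rw [Multiset.card_cons] at hs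
        obtain ⟨r', hr'⟩ := Multiset.card_pos_iff_exists_mem.mp (by omega : 0 < s1.card)
        obtain ⟨s2, rfl⟩ := Multiset.exists_cons_of_mem hr'
        rw [Multiset.card_cons] at hs
        have hne : r ≠ r' := by
          intro h
          subst h
          have := (Multiset.nodup_cons.mp hnd).1
          exact this (Multiset.mem_cons_self _ _)
        have h0 := ih (n - 2) (by omega) s2 (by omega)
        have h1 := ih (n - 1) (by omega) (r ::ₘ s2) (by rw [Multiset.card_cons]; omega)
        have h2 := ih (n - 1) (by omega) (r' ::ₘ s2) (by rw [Multiset.card_cons]; omega)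
        rw [Multiset.map_cons, Multiset.prod_cons, mul_comm] at h1 h2
        have h3 := good_two (t := r' - r) (l := X - C r) (l' := X - C r') S
          (sub_ne_zero.mpr hne.symm) (by rw [C_sub]; ring) (good_lin S hx r) (good_lin S hx r')
          h0 h1 h2
        rw [Multiset.map_cons, Multiset.prod_cons, Multiset.map_cons, Multiset.prod_cons]
        have e : (X - C r) * ((X - C r') * (s2.map (fun r => X - C r)).prod) =
            (s2.map (fun r => X - C r)).prod * (X - C r) * (X - C r') := by ring
        rw [e]
        exact h3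
    · obtain ⟨r, t, rfl⟩ : ∃ (r : K) (t : Multiset K), s = r ::ₘ r ::ₘ t := by
        rw [Multiset.nodup_iff_count_le_one] at hnd
        push Not at hnd
        obtain ⟨r, hr⟩ := hnd
        have h2 : Multiset.replicate 2 r ≤ s := Multiset.le_count_iff_replicate_le.mp (by omega)
        obtain ⟨t, ht⟩ := Multiset.le_iff_exists_add.mp h2
        refine ⟨r, t, ?_⟩
        rw [ht]
        simp [Multiset.replicate_succ]
      rw [Multiset.card_cons, Multiset.card_cons] at hs
      have h0 := ih (n - 2) (by omega) t (by omega)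
      have h1 := good_sq (good_lin S hx r) h0
      rw [Multiset.map_cons, Multiset.prod_cons, Multiset.map_cons, Multiset.prod_cons, ← mul_assoc,
        ← sq]
      exact h1

end Pool.Agent.HuaTwoP96
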