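import Mathlib
import Pool.Agent.HuaTwoP96.Lin

/-!
Two points of a Hua system, any field of scalars: fractions with good denominators.
-/

set_option autoImplicit false

open Polynomial

namespace Pool.Agent.HuaTwoP96

open Pool.Agent.HuaTop84 Pool.Agent.HuaVal Pool.Agent.HuaOne84 Pool.Agent.HuaOne84.HS

variable {A : Type} [AddCommGroup A] {H : HS A}
variable {K : Type} [Field K] [Module K A]

/-- The element `a / b`. -/
noncomputable def vl (K : Type) [Field K] [Module K A] (H : HS A) (x : A) (a b : K[X]) : A :=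
  H.U (H.inv (psi K H x b)) (psi K H x (a * b))

variable {x : A}

theorem Gen_vl (a b : K[X]) : H.Gen K x (vl K H x a b) := (Gen.psi b).inv.U (Gen.psi _)

theorem U_vl {a b : K[X]} (hb : psi K H x b ≠ 0) :
    H.U (psi K H x b) (vl K H x a b) = psi K H x (a * b) := H.U_inv_right _ _ hb

theorem vl_one (a : K[X]) : vl K H x a 1 = psi K H x a := by
  unfold vl
  rw [mul_one, psi_one, H.inv_one, H.U_one]

theorem vl_add (a c b : K[X]) : vl K H x (a + c) b = vl K H x a b + vl K H x c b := by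
  unfold vl
  rw [add_mul, map_add, map_add]

/-- The field of rational functions. -/
abbrev FF (K : Type) [Field K] : Type := FractionRing K[X]

/-- The inclusion of the polynomials. -/
noncomputable abbrev fr {K : Type} [Field K] : K[X] →+* FF K := algebraMap K[X] (FF K)

theorem fr_ne {b : K[X]} (hb : b ≠ 0) : fr b ≠ 0 := by
  intro h
  exact hb ((IsFractionRing.injective K[X] (FF K)) (by rw [h, map_zero]))

/-- Fractions with denominator in `M`. -/
def inD (M : Submonoid K[X]) (r : FF K) : Prop := ∃ a b : K[X], b ∈ M ∧ r = fr a / fr b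

/-- Fractions with numerator and denominator in `M`. -/
def inW (M : Submonoid K[X]) (r : FF K) : Prop := ∃ a b : K[X], a ∈ M ∧ b ∈ M ∧ r = fr a / fr b

theorem inW.inD {M : Submonoid K[X]} {r : FF K} (h : inW M r) : inD M r := by
  obtain ⟨a, b, -, hb, rfl⟩ := h
  exact ⟨a, b, hb, rfl⟩

open Classical in
/-- The element of `A` given by a fraction. -/
noncomputable def iot (H : HS A) (x : A) (M : Submonoid K[X]) (r : FF K) : A :=
  if h : inD M r then vl K H x h.choose h.choose_spec.choose else 0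

variable (S : H.Scal K) {M : Submonoid K[X]} (hM : ∀ b ∈ M, Good K H x b)

include hM in
theorem ne_of_mem {b : K[X]} (hb : b ∈ M) : b ≠ 0 := by
  rintro rfl
  exact (hM 0 hb).1 (map_zero _)

include S hM in
theorem U_mulM {b c : K[X]} (hb : b ∈ M) (hc : c ∈ M) {z : A} (hz : H.Gen K x z) :
    H.U (psi K H x b) (H.U (psi K H x c) z) = H.U (psi K H x (b * c)) z :=
  U_mul' S (hM b hb) (hM c hc) (hM _ (M.mul_mem hb hc)) hz

include S hM in
theorem U_commM {b c : K[X]} (hb : b ∈ M) (hc : c ∈ M) {z : A} (hz : H.Gen K x z) :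
    H.U (psi K H x b) (H.U (psi K H x c) z) = H.U (psi K H x c) (H.U (psi K H x b) z) := by
  rw [U_mulM S hM hb hc hz, U_mulM S hM hc hb hz, mul_comm]

include S hM in
theorem vl_congr {a b a' b' : K[X]} (hb : b ∈ M) (hb' : b' ∈ M) (h : a * b' = a' * b) :
    vl K H x a b = vl K H x a' b' := by
  apply H.U_inj' (hM b hb).1
  apply H.U_inj' (hM b' hb').1
  rw [U_vl (hM b hb).1, U_commM S hM hb' hb (Gen_vl a' b'), U_vl (hM b' hb').1, (hM b' hb').2,
    (hM b hb).2]
  congr 1
  have e1 : b' ^ 2 * (a * b) = (a * b') * (b * b') := by ring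
  have e2 : b ^ 2 * (a' * b') = (a' * b) * (b * b') := by ring
  rw [e1, e2, h]

include S hM in
theorem iot_eq (a : K[X]) {b : K[X]} (hb : b ∈ M) : iot H x M (fr a / fr b) = vl K H x a b := by
  have h : inD M (fr a / fr b) := ⟨a, b, hb, rfl⟩
  unfold iot
  rw [dif_pos h]
  obtain ⟨h1, h2⟩ := h.choose_spec.choose_spec
  apply vl_congr S hM h1 hb
  have hb0 := fr_ne (ne_of_mem hM hb)
  have h10 := fr_ne (ne_of_mem hM h1)
  rw [div_eq_div_iff hb0 h10, ← map_mul, ← map_mul] at h2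
  exact (IsFractionRing.injective K[X] (FF K) h2).symm

include S hM in
theorem iot_fr (a : K[X]) : iot H x M (fr a) = psi K H x a := by
  have h := iot_eq S hM a M.one_mem
  rwa [map_one, div_one, vl_one] at h

theorem inD_fr (a : K[X]) : inD M (fr a) := ⟨a, 1, M.one_mem, by rw [map_one, div_one]⟩

include hM in
theorem inD_add {u v : FF K} (hu : inD M u) (hv : inD M v) : inD M (u + v) := by
  obtain ⟨a, b, hb, rfl⟩ := hu
  obtain ⟨c, d, hd, rfl⟩ := hv
  have hb0 := fr_ne (ne_of_mem hM hb)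
  have hd0 := fr_ne (ne_of_mem hM hd)
  refine ⟨a * d + b * c, b * d, M.mul_mem hb hd, ?_⟩
  rw [div_add_div _ _ hb0 hd0]
  simp only [map_add, map_mul]

theorem inD_mul {u v : FF K} (hu : inD M u) (hv : inD M v) : inD M (u * v) := by
  obtain ⟨a, b, hb, rfl⟩ := hu
  obtain ⟨c, d, hd, rfl⟩ := hv
  refine ⟨a * c, b * d, M.mul_mem hb hd, ?_⟩
  rw [div_mul_div_comm]
  simp only [map_mul]

theorem inD_neg {u : FF K} (hu : inD M u) : inD M (-u) := by
  obtain ⟨a, b, hb, rfl⟩ := hu
  exact ⟨-a, b, hb, by rw [map_neg, neg_div]⟩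

theorem inW_mul {u v : FF K} (hu : inW M u) (hv : inW M v) : inW M (u * v) := by
  obtain ⟨a, b, ha, hb, rfl⟩ := hu
  obtain ⟨c, d, hc, hd, rfl⟩ := hv
  refine ⟨a * c, b * d, M.mul_mem ha hc, M.mul_mem hb hd, ?_⟩
  rw [div_mul_div_comm]
  simp only [map_mul]

theorem inW_inv {u : FF K} (hu : inW M u) : inW M u⁻¹ := by
  obtain ⟨a, b, ha, hb, rfl⟩ := hu
  exact ⟨b, a, hb, ha, by rw [inv_div]⟩

theorem inW_fr {a : K[X]} (ha : a ∈ M) : inW M (fr a) :=
  ⟨a, 1, ha, M.one_mem, by rw [map_one, div_one]⟩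

include hM in
theorem inW_ne {u : FF K} (hu : inW M u) : u ≠ 0 := by
  obtain ⟨a, b, ha, hb, rfl⟩ := hu
  exact div_ne_zero (fr_ne (ne_of_mem hM ha)) (fr_ne (ne_of_mem hM hb))

include S hM in
theorem iot_add {u v : FF K} (hu : inD M u) (hv : inD M v) :
    iot H x M (u + v) = iot H x M u + iot H x M v := by
  obtain ⟨a, b, hb, rfl⟩ := hu
  obtain ⟨c, d, hd, rfl⟩ := hv
  have hb0 := fr_ne (ne_of_mem hM hb)
  have hd0 := fr_ne (ne_of_mem hM hd)
  have hbd := M.mul_mem hb hd
  have e1 : fr a / fr b = fr (a * d) / fr (b * d) := by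
    rw [map_mul, map_mul]; field_simp
  have e2 : fr c / fr d = fr (c * b) / fr (b * d) := by
    rw [map_mul, map_mul]; field_simp
  have e3 : fr a / fr b + fr c / fr d = fr (a * d + c * b) / fr (b * d) := by
    rw [e1, e2, map_add, add_div]
  rw [e3, e1, e2, iot_eq S hM _ hbd, iot_eq S hM _ hbd, iot_eq S hM _ hbd, vl_add]

include S hM in
theorem iot_smul (t : K) {u : FF K} (hu : inD M u) :
    iot H x M (fr (C t) * u) = t • iot H x M u := by
  obtain ⟨a, b, hb, rfl⟩ := hu
  rw [← mul_div_assoc, ← map_mul, iot_eq S hM _ hb, iot_eq S hM _ hb]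
  unfold vl
  rw [mul_assoc, psi_C_mul, S.U_smul]

include S hM in
theorem iot_neg {u : FF K} (hu : inD M u) : iot H x M (-u) = - iot H x M u := by
  have h := iot_smul S hM (-1) hu
  rwa [C_neg, C_1, map_neg, map_one, neg_one_mul, neg_smul, one_smul] at h

include S hM in
theorem iot_ne {u : FF K} (hu : inW M u) : iot H x M u ≠ 0 := by
  obtain ⟨a, b, ha, hb, rfl⟩ := hu
  rw [iot_eq S hM _ hb]
  intro h
  have h1 := U_vl (a := a) (hM b hb).1
  rw [h, map_zero] at h1
  exact (hM _ (M.mul_mem ha hb)).1 h1.symm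

include S hM in
theorem iot_inv {u : FF K} (hu : inW M u) : H.inv (iot H x M u) = iot H x M u⁻¹ := by
  obtain ⟨a, b, ha, hb, rfl⟩ := hu
  rw [inv_div, iot_eq S hM _ hb, iot_eq S hM _ ha]
  have h1 : H.inv (vl K H x a b) = H.U (psi K H x b) (H.inv (psi K H x (a * b))) := by
    unfold vl
    rw [H.inv_U _ _ (H.inv_ne _ (hM b hb).1), H.inv_inv]
  rw [h1]
  apply H.U_inj' (hM a ha).1
  rw [U_vl (hM a ha).1, U_mulM S hM ha hb (Gen.psi _).inv, H.U_self, mul_comm]

include S hM in
theorem iot_U {u v : FF K} (hu : inW M u) (hv : inD M v) :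
    H.U (iot H x M u) (iot H x M v) = iot H x M (u * u * v) := by
  obtain ⟨a, b, ha, hb, rfl⟩ := hu
  obtain ⟨c, d, hd, rfl⟩ := hv
  have hb' := fr_ne (ne_of_mem hM hb)
  have hd' := fr_ne (ne_of_mem hM hd)
  have hab := M.mul_mem ha hb
  have hbb := M.mul_mem hb hb
  have hbbd := M.mul_mem hbb hd
  have e1 : fr a / fr b * (fr a / fr b) * (fr c / fr d) =
      fr (a * a * c) / fr (b * b * d) := by
    simp only [map_mul]
    field_simp
  rw [e1, iot_eq S hM _ hb, iot_eq S hM _ hd, iot_eq S hM _ hbbd]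
  have h1 : H.U (vl K H x a b) (vl K H x c d) =
      H.U (H.inv (psi K H x b)) (H.U (psi K H x (a * b))
        (H.U (H.inv (psi K H x b)) (vl K H x c d))) := by
    conv_lhs => unfold vl
    rw [H.U_U]
    rfl
  have hG1 : H.Gen K x (H.U (H.inv (psi K H x b)) (vl K H x c d)) :=
    (Gen.psi b).inv.U (Gen_vl c d)
  have hG2 : H.Gen K x (H.U (vl K H x a b) (vl K H x c d)) := (Gen_vl a b).U (Gen_vl c d)
  have hbn := (hM b hb).1
  apply H.U_inj' (hM _ hbbd).1
  rw [U_vl (hM _ hbbd).1, ← U_mulM S hM hbb hd hG2, ← U_mulM S hM hb hb ((Gen.psi d).U hG2),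
    U_commM S hM hb hd hG2, h1, H.U_inv_right _ _ hbn,
    U_commM S hM hb hd ((Gen.psi (a * b)).U hG1), U_commM S hM hb hab hG1,
    H.U_inv_right _ _ hbn, U_commM S hM hd hab (Gen_vl c d), U_vl (hM d hd).1, (hM _ hab).2]
  congr 1
  ring

end Pool.Agent.HuaTwoP96
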