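import Mathlib
import Pool.Agent.HuaTwoP96.Loc

/-!
Two points of a Hua system, any field of scalars: the multiplication rule for a new irreducible
polynomial.
-/

set_option autoImplicit false

open Polynomial

namespace Pool.Agent.HuaTwoP96

open Pool.Agent.HuaTop84 Pool.Agent.HuaVal Pool.Agent.HuaOne84 Pool.Agent.HuaOne84.HS

variable {A : Type} [AddCommGroup A] {H : HS A}
variable {K : Type} [Field K] [Module K A]
variable {x : A}

/-- The sum formula, also for `a + b = 0`. -/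
theorem sum' (a b z : A) (ha : a ≠ 0) (hb : b ≠ 0) :
    H.U (a + b) z = H.U a (H.U (H.inv a + H.inv b) (H.U b z)) := by
  by_cases h : a + b = 0
  · have hb' : b = -a := by rw [eq_neg_iff_add_eq_zero, add_comm]; exact h
    have h0 : ∀ z, H.U 0 z = 0 := fun z => by rw [H.U_zero]; rfl
    rw [h, hb', H.inv_neg, add_neg_cancel, h0, h0, map_zero]
  · exact H.sum a b z ha hb h

/-- The multiplication rule for `k q` and `h`. -/
def Hh (H : HS A) (x : A) (M : Submonoid K[X]) (q : K[X]) (k h : FF K) : Prop :=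
  H.U (iot H x M (k * fr q)) (iot H x M h) = iot H x M (k * fr q * (k * fr q) * h)

variable (S : H.Scal K) {M : Submonoid K[X]} (hM : ∀ b ∈ M, Good K H x b) {q : K[X]}

include S hM in
theorem Hh_sq {t k h : FF K} (ht : inW M t) (hk : inD M k) (hh : inD M h) :
    Hh H x M q (t * t * k) h ↔ Hh H x M q k (t * t * h) := by
  have hkq : inD M (k * fr q) := inD_mul hk (inD_fr q)
  have hth : inD M (t * t * h) := inD_mul (inD_mul ht.inD ht.inD) hh
  unfold Hh
  have e1 : t * t * k * fr q = t * t * (k * fr q) := by ring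
  have e2 : t * t * k * fr q * (t * t * k * fr q) * h =
      t * t * (k * fr q * (k * fr q) * (t * t * h)) := by ring
  rw [e2, e1, ← iot_U S hM ht hkq, H.U_U, iot_U S hM ht hh,
    ← iot_U S hM ht (inD_mul (inD_mul hkq hkq) hth)]
  constructor
  · intro h1
    exact H.U_inj' (iot_ne S hM ht) h1
  · intro h1
    rw [h1]

include S hM in
theorem Hh_neg {k h : FF K} (hk : inD M k) :
    Hh H x M q (-k) h ↔ Hh H x M q k h := by
  have hkq : inD M (k * fr q) := inD_mul hk (inD_fr q)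
  unfold Hh
  rw [neg_mul, iot_neg S hM hkq, U_neg, neg_mul_neg]

include S hM in
theorem Hh_two {e f k : FF K} (he : inW M e) (hf : inW M f) (h : e + f = k * fr q) :
    Hh H x M q k f⁻¹ := by
  unfold Hh
  rw [← h, iot_add S hM he.inD hf.inD]
  have hfn := inW_ne hM hf
  have hf' := inW_inv hf
  have h1 : iot H x M e + iot H x M f ≠ iot H x M e := by
    intro h2
    exact iot_ne S hM hf (by simpa using h2)
  have h2 := H.diff _ _ h1
  have e1 : iot H x M e + iot H x M f - iot H x M e = iot H x M f := by abel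
  rw [e1, iot_inv S hM hf, iot_U S hM he hf'.inD, sub_eq_iff_eq_add] at h2
  rw [h2, ← iot_add S hM he.inD hf.inD, ← iot_add S hM (inD_add hM he.inD hf.inD) he.inD,
    ← iot_add S hM (inD_add hM (inD_add hM he.inD hf.inD) he.inD)
      (inD_mul (inD_mul he.inD he.inD) hf'.inD)]
  congr 1
  field_simp
  ring

include S hM in
theorem Hh_three {e f k h : FF K} (he : inW M e) (hf : inW M f) (hk : inD M k) (hh : inD M h)
    (hef : e + f = k * fr q) :
    Hh H x M q k h ↔ Hh H x M q (k * e⁻¹ * f⁻¹) (f * f * h) := by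
  have hen := inW_ne hM he
  have hfn := inW_ne hM hf
  have he' := inW_inv he
  have hf' := inW_inv hf
  have hk' : inD M (k * e⁻¹ * f⁻¹) := inD_mul (inD_mul hk he'.inD) hf'.inD
  have hkq' : inD M (k * e⁻¹ * f⁻¹ * fr q) := inD_mul hk' (inD_fr q)
  have hfh : inD M (f * f * h) := inD_mul (inD_mul hf.inD hf.inD) hh
  unfold Hh
  have e1 : e⁻¹ + f⁻¹ = k * e⁻¹ * f⁻¹ * fr q := by
    have : k * e⁻¹ * f⁻¹ * fr q = (k * fr q) * (e⁻¹ * f⁻¹) := by ring
    rw [this, ← hef]
    field_simp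
    ring
  have h1 : H.U (iot H x M (k * fr q)) (iot H x M h) =
      H.U (iot H x M e) (H.U (iot H x M (k * e⁻¹ * f⁻¹ * fr q)) (iot H x M (f * f * h))) := by
    rw [← hef, iot_add S hM he.inD hf.inD, sum' _ _ _ (iot_ne S hM he) (iot_ne S hM hf),
      iot_inv S hM he, iot_inv S hM hf, ← iot_add S hM he'.inD hf'.inD, e1, iot_U S hM hf hh]
  have h2 : iot H x M (k * fr q * (k * fr q) * h) = H.U (iot H x M e)
      (iot H x M (k * e⁻¹ * f⁻¹ * fr q * (k * e⁻¹ * f⁻¹ * fr q) * (f * f * h))) := by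
    rw [iot_U S hM he (inD_mul (inD_mul hkq' hkq') hfh)]
    congr 1
    field_simp
  rw [h1, h2]
  constructor
  · intro h3
    exact H.U_inj' (iot_ne S hM he) h3
  · intro h3
    rw [h3]

/-- Elementary pairs. -/
def Elem (M : Submonoid K[X]) (q : K[X]) (u w : FF K) : Prop :=
  inW M u ∧ inW M w ∧ 1 - u = fr q * w

/-- The numerators that are right for all `k`. -/
def QQ (H : HS A) (x : A) (M : Submonoid K[X]) (q : K[X]) (g : FF K) : Prop :=
  inD M g ∧ ∀ k, inW M k → Hh H x M q k (k⁻¹ * g)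

variable (hneg : (-1 : K[X]) ∈ M)

include hneg in
theorem inW_neg {u : FF K} (hu : inW M u) : inW M (-u) := by
  have h := inW_mul (inW_fr hneg) hu
  rwa [map_neg, map_one, neg_one_mul] at h

include S hM hneg in
theorem elem_iff {u w k h : FF K} (hu : Elem M q u w) (hk : inW M k) (hh : inD M h) :
    Hh H x M q k h ↔ Hh H x M q (k * u⁻¹) h := by
  obtain ⟨hu, hw, huw⟩ := hu
  have hun := inW_ne hM hu
  have hwn := inW_ne hM hw
  have hkn := inW_ne hM hk
  have hf : inW M (k * w⁻¹) := inW_mul hk (inW_inv hw)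
  have hfn := inW_ne hM hf
  have he : inW M (-(u * (k * w⁻¹))) := inW_neg hneg (inW_mul hu hf)
  have hef : -(u * (k * w⁻¹)) + k * w⁻¹ = k * fr q := by
    have : -(u * (k * w⁻¹)) + k * w⁻¹ = (1 - u) * (k * w⁻¹) := by ring
    rw [this, huw]
    field_simp
  have hfi := inW_inv hf
  have hku : inW M (k * u⁻¹) := inW_mul hk (inW_inv hu)
  rw [Hh_three S hM he hf hk.inD hh hef]
  have e1 : k * (-(u * (k * w⁻¹)))⁻¹ * (k * w⁻¹)⁻¹ =
      -((k * w⁻¹)⁻¹ * (k * w⁻¹)⁻¹ * (k * u⁻¹)) := by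
    rw [inv_neg, mul_inv]
    ring
  rw [e1, Hh_neg S hM (inD_mul (inD_mul hfi.inD hfi.inD) hku.inD),
    Hh_sq S hM hfi hku.inD (inD_mul (inD_mul hf.inD hf.inD) hh)]
  have e2 : (k * w⁻¹)⁻¹ * (k * w⁻¹)⁻¹ * (k * w⁻¹ * (k * w⁻¹) * h) = h := by
    field_simp
  rw [e2]

include S hM hneg in
theorem QQ_elem {u w : FF K} (hu : Elem M q u w) : QQ H x M q w := by
  obtain ⟨hu, hw, huw⟩ := hu
  refine ⟨hw.inD, fun k hk => ?_⟩
  have hun := inW_ne hM hu
  have hwn := inW_ne hM hw
  have hkn := inW_ne hM hk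
  have hf : inW M (k * w⁻¹) := inW_mul hk (inW_inv hw)
  have he : inW M (-(u * (k * w⁻¹))) := inW_neg hneg (inW_mul hu hf)
  have hef : -(u * (k * w⁻¹)) + k * w⁻¹ = k * fr q := by
    have : -(u * (k * w⁻¹)) + k * w⁻¹ = (1 - u) * (k * w⁻¹) := by ring
    rw [this, huw]
    field_simp
  have h := Hh_two S hM he hf hef
  rwa [mul_inv, inv_inv] at h

include S hM in
theorem Hh_add {k h h' : FF K} (hk : inD M k) (hh : inD M h) (hh' : inD M h')
    (h1 : Hh H x M q k h) (h2 : Hh H x M q k h') : Hh H x M q k (h + h') := by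
  have hkq : inD M (k * fr q) := inD_mul hk (inD_fr q)
  unfold Hh at *
  rw [iot_add S hM hh hh', map_add, h1, h2, mul_add,
    iot_add S hM (inD_mul (inD_mul hkq hkq) hh) (inD_mul (inD_mul hkq hkq) hh')]

include S hM in
theorem Hh_smul {k h : FF K} (c : K) (hk : inD M k) (hh : inD M h)
    (h1 : Hh H x M q k h) : Hh H x M q k (fr (C c) * h) := by
  have hkq : inD M (k * fr q) := inD_mul hk (inD_fr q)
  unfold Hh at *
  have e : k * fr q * (k * fr q) * (fr (C c) * h) = fr (C c) * (k * fr q * (k * fr q) * h) := by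
    ring
  rw [e, iot_smul S hM c hh, S.U_smul, h1, iot_smul S hM c (inD_mul (inD_mul hkq hkq) hh)]

include S hM in
theorem QQ_add {g g' : FF K} (hg : QQ H x M q g) (hg' : QQ H x M q g') :
    QQ H x M q (g + g') := by
  refine ⟨inD_add hM hg.1 hg'.1, fun k hk => ?_⟩
  rw [mul_add]
  exact Hh_add S hM hk.inD (inD_mul (inW_inv hk).inD hg.1) (inD_mul (inW_inv hk).inD hg'.1)
    (hg.2 k hk) (hg'.2 k hk)

include S hM in
theorem QQ_smul {g : FF K} (c : K) (hg : QQ H x M q g) : QQ H x M q (fr (C c) * g) := by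
  refine ⟨inD_mul (inD_fr _) hg.1, fun k hk => ?_⟩
  have e : k⁻¹ * (fr (C c) * g) = fr (C c) * (k⁻¹ * g) := by ring
  rw [e]
  exact Hh_smul S hM c hk.inD (inD_mul (inW_inv hk).inD hg.1) (hg.2 k hk)

include S hM in
theorem QQ_neg {g : FF K} (hg : QQ H x M q g) : QQ H x M q (-g) := by
  have h := QQ_smul S hM (-1) hg
  rwa [C_neg, C_1, map_neg, map_one, neg_one_mul] at h

include S hM in
theorem QQ_zero {g : FF K} (hg : QQ H x M q g) : QQ H x M q 0 := by
  have h := QQ_smul S hM 0 hg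
  rwa [C_0, map_zero, zero_mul] at h

include S hM hneg in
theorem QQ_mul {u w g : FF K} (hu : Elem M q u w) (hg : QQ H x M q g) :
    QQ H x M q (fr q * w * g) := by
  have hun := inW_ne hM hu.1
  have h1 : QQ H x M q (u * g) := by
    refine ⟨inD_mul hu.1.inD hg.1, fun k hk => ?_⟩
    have hkn := inW_ne hM hk
    have hku : inW M (k * u⁻¹) := inW_mul hk (inW_inv hu.1)
    rw [elem_iff S hM hneg hu hk (inD_mul (inW_inv hk).inD (inD_mul hu.1.inD hg.1))]
    have h2 := hg.2 _ hku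
    have e : (k * u⁻¹)⁻¹ * g = k⁻¹ * (u * g) := by
      rw [mul_inv, inv_inv]
      ring
    rwa [e] at h2
  have h2 := QQ_add S hM hg (QQ_neg S hM h1)
  have e : g + -(u * g) = fr q * w * g := by
    rw [← hu.2.2]
    ring
  rwa [e] at h2

end Pool.Agent.HuaTwoP96
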