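import Mathlib
import Pool.Agent.HuaTwoP96.Step

/-!
Two points of a Hua system, any field of scalars: all polynomials are numerators.
-/

set_option autoImplicit false

open Polynomial

namespace Pool.Agent.HuaTwoP96

open Pool.Agent.HuaTop84 Pool.Agent.HuaVal Pool.Agent.HuaOne84 Pool.Agent.HuaOne84.HS

variable {A : Type} [AddCommGroup A] {H : HS A}
variable {K : Type} [Field K] [Module K A]
variable {x : A}

variable (S : H.Scal K) {M : Submonoid K[X]} (hM : ∀ b ∈ M, Good K H x b) {q : K[X]} {n : ℕ}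
  (hn : 2 ≤ n) (hqm : q.Monic) (hqi : Irreducible q) (hqn : q.natDegree = n)
  (hdeg : ∀ f : K[X], f ≠ 0 → f.natDegree < n → f ∈ M)

include hn hdeg in
theorem X_mem : (X : K[X]) ∈ M := hdeg X X_ne_zero (by rw [natDegree_X]; omega)

include hn hdeg in
theorem C_mem {c : K} (hc : c ≠ 0) : (C c : K[X]) ∈ M :=
  hdeg _ (by rwa [Ne, C_eq_zero]) (by rw [natDegree_C]; omega)

include hn hdeg in
theorem neg_one_mem : (-1 : K[X]) ∈ M := by
  have h := C_mem hn hdeg (c := (-1 : K)) (by simp)
  rwa [C_neg, C_1] at h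

include hn hqi hqn in
theorem eval_ne (s : K) : q.eval s ≠ 0 := by
  intro h
  have h1 : (X - C s) ∣ q := dvd_iff_isRoot.mpr h
  obtain ⟨g, hg⟩ := h1
  rcases hqi.isUnit_or_isUnit hg with h2 | h2
  · exact not_isUnit_X_sub_C s h2
  · have h3 : q.natDegree = 1 := by
      have hgn : g ≠ 0 := h2.ne_zero
      rw [hg, natDegree_mul (X_sub_C_ne_zero s) hgn, natDegree_X_sub_C,
        natDegree_eq_zero_of_isUnit h2]
    omega

include hM hn hqm hqi hqn hdeg in
/-- The elementary pairs used. -/
theorem elem_exists (k : ℕ) (hk : k ≤ n) : ∃ (u : FF K) (b : K), b ≠ 0 ∧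
    Elem M q u (fr (C b) * (fr X ^ k)⁻¹) := by
  have hXk : (X ^ k : K[X]) ∈ M := M.pow_mem (X_mem hn hdeg) k
  have hX0 : (fr X : FF K) ≠ 0 := fr_ne X_ne_zero
  have hX1 : (fr X : FF K) ^ k ≠ 0 := pow_ne_zero _ hX0
  obtain ⟨b, hb, hmem⟩ : ∃ b : K, b ≠ 0 ∧ X ^ k - C b * q ∈ M := by
    rcases Nat.lt_or_ge k n with hlt | hge
    · have hq1 := eval_ne hn hqi hqn 1
      refine ⟨(q.eval 1)⁻¹, inv_ne_zero hq1, ?_⟩
      set f := X ^ k - C (q.eval 1)⁻¹ * q with hf
      have hbn : (q.eval 1)⁻¹ ≠ 0 := inv_ne_zero hq1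
      have hdf : f.natDegree = n := by
        rw [hf, natDegree_sub, natDegree_sub_eq_left_of_natDegree_lt]
        · rw [natDegree_C_mul hbn, hqn]
        · rw [natDegree_C_mul hbn, hqn, natDegree_X_pow]
          exact hlt
      have hf0 : f ≠ 0 := by
        intro h
        rw [h, natDegree_zero] at hdf
        omega
      have hroot : f.IsRoot 1 := by
        rw [IsRoot.def, hf, eval_sub, eval_pow, eval_X, one_pow, eval_mul, eval_C,
          inv_mul_cancel₀ hq1, sub_self]
      obtain ⟨g, hg⟩ := dvd_iff_isRoot.mpr hroot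
      have hg0 : g ≠ 0 := by
        rintro rfl
        rw [mul_zero] at hg
        exact hf0 hg
      have hdg : g.natDegree + 1 = n := by
        rw [← hdf, hg, natDegree_mul (X_sub_C_ne_zero 1) hg0, natDegree_X_sub_C, add_comm]
      rw [hg]
      exact M.mul_mem (hdeg _ (X_sub_C_ne_zero 1) (by rw [natDegree_X_sub_C]; omega))
        (hdeg _ hg0 (by omega))
    · have hkn : k = n := le_antisymm hk hge
      refine ⟨1, one_ne_zero, ?_⟩
      rw [C_1, one_mul]
      apply hdeg
      · intro h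
        rw [sub_eq_zero] at h
        have := eval_ne hn hqi hqn 0
        rw [← h, eval_pow, eval_X, hkn] at this
        exact this (zero_pow (by omega))
      · have h1 : (X ^ k - q).degree < (X ^ k : K[X]).degree := by
          apply degree_sub_lt
          · rw [degree_X_pow, degree_eq_natDegree hqm.ne_zero, hqn, hkn]
          · exact pow_ne_zero _ X_ne_zero
          · rw [hqm.leadingCoeff, (monic_X_pow k).leadingCoeff]
        rw [degree_X_pow, hkn] at h1
        by_cases h0 : (X ^ n - q : K[X]) = 0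
        · rw [hkn, h0, natDegree_zero]
          omega
        · rw [hkn]
          exact (natDegree_lt_iff_degree_lt h0).mpr h1
  refine ⟨fr (X ^ k - C b * q) * (fr X ^ k)⁻¹, b, hb, ?_, ?_, ?_⟩
  · exact ⟨_, _, hmem, hXk, by rw [map_pow, div_eq_mul_inv]⟩
  · exact ⟨_, _, C_mem hn hdeg hb, hXk, by rw [map_pow, div_eq_mul_inv]⟩
  · rw [map_sub, map_mul, map_pow]
    field_simp
    ring

include S hM hn hqm hqi hqn hdeg in
theorem QQ_pow (k : ℕ) (hk : k ≤ n) : QQ H x M q ((fr X ^ k)⁻¹) := by
  obtain ⟨u, b, hb, hu⟩ := elem_exists hM hn hqm hqi hqn hdeg k hk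
  have h1 := QQ_smul S hM b⁻¹ (QQ_elem S hM (neg_one_mem hn hdeg) hu)
  have e : fr (C b⁻¹) * (fr (C b) * (fr X ^ k)⁻¹) = ((fr X ^ k)⁻¹ : FF K) := by
    rw [← mul_assoc, ← map_mul, ← C_mul, inv_mul_cancel₀ hb, C_1, map_one, one_mul]
  rwa [e] at h1

include S hM hn hqm hqi hqn hdeg in
theorem QQ_mulq (k : ℕ) (hk : k ≤ n) {g : FF K} (hg : QQ H x M q g) :
    QQ H x M q (fr q * (fr X ^ k)⁻¹ * g) := by
  obtain ⟨u, b, hb, hu⟩ := elem_exists hM hn hqm hqi hqn hdeg k hk
  have h1 := QQ_smul S hM b⁻¹ (QQ_mul S hM (neg_one_mem hn hdeg) hu hg)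
  have e : fr (C b⁻¹) * (fr q * (fr (C b) * (fr X ^ k)⁻¹) * g) =
      (fr q * (fr X ^ k)⁻¹ * g : FF K) := by
    have e1 : fr (C b⁻¹) * (fr q * (fr (C b) * (fr X ^ k)⁻¹) * g) =
        (fr (C b⁻¹) * fr (C b)) * (fr q * (fr X ^ k)⁻¹ * g : FF K) := by ring
    rw [e1, ← map_mul, ← C_mul, inv_mul_cancel₀ hb, C_1, map_one, one_mul]
  rwa [e] at h1

include S hM hn hqm hqi hqn hdeg in
theorem QQ_zero' : QQ H x M q 0 := QQ_zero S hM (QQ_pow S hM hn hqm hqi hqn hdeg 0 (by omega))

include S hM hn hqm hqi hqn hdeg in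
/-- Polar parts. -/
theorem QQ_polar (k : ℕ) (hk : k ≤ n) : ∀ p : K[X], p.degree < k →
    QQ H x M q (fr p * (fr X ^ k)⁻¹) := by
  induction k with
  | zero =>
    intro p hp
    have : p = 0 := degree_eq_bot.mp (Nat.WithBot.lt_zero_iff.mp (by exact_mod_cast hp))
    rw [this, map_zero, zero_mul]
    exact QQ_zero' S hM hn hqm hqi hqn hdeg
  | succ k ih =>
    intro p hp
    have hX0 : (fr X : FF K) ≠ 0 := fr_ne X_ne_zero
    have e : fr p * (fr X ^ (k + 1))⁻¹ = fr (C (p.coeff 0)) * (fr X ^ (k + 1))⁻¹ +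
        fr p.divX * (fr X ^ k)⁻¹ := by
      conv_lhs => rw [← divX_mul_X_add p]
      rw [map_add, map_mul, pow_succ]
      field_simp
      ring
    rw [e]
    refine QQ_add S hM (QQ_smul S hM _ (QQ_pow S hM hn hqm hqi hqn hdeg _ hk)) (ih (by omega) _ ?_)
    by_cases h0 : p.divX = 0
    · rw [h0, degree_zero]
      exact WithBot.bot_lt_coe _
    · rw [degree_eq_natDegree h0]
      have hp0 : p ≠ 0 := by
        rintro rfl
        exact h0 divX_zero
      have h1 : p.natDegree < k + 1 := by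
        rw [degree_eq_natDegree hp0] at hp
        exact_mod_cast hp
      have h2 : p.divX.natDegree = p.natDegree - 1 := natDegree_divX_eq_natDegree_tsub_one
      have h3 : p.natDegree ≠ 0 := by
        intro h
        apply h0
        rw [eq_C_of_natDegree_eq_zero h]
        exact divX_C _
      have h4 : p.divX.natDegree < k := by omega
      exact_mod_cast h4

include S hM hn hqm hqi hqn hdeg in
/-- The polynomial parts. -/
theorem QQ_part (k : ℕ) (hk : k ≤ n) : QQ H x M q (fr (q /ₘ (X ^ k))) := by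
  have hX0 : (fr X : FF K) ≠ 0 := fr_ne X_ne_zero
  have h1 := QQ_mulq S hM hn hqm hqi hqn hdeg k hk (QQ_pow S hM hn hqm hqi hqn hdeg 0 (by omega))
  have hmon : (X ^ k : K[X]).Monic := monic_X_pow k
  have h2 := QQ_polar S hM hn hqm hqi hqn hdeg k hk (q %ₘ (X ^ k)) (by
    have := degree_modByMonic_lt q hmon
    rwa [degree_X_pow] at this)
  have h3 := QQ_add S hM h1 (QQ_neg S hM h2)
  have e : fr q * (fr X ^ k)⁻¹ * (fr X ^ 0)⁻¹ + -(fr (q %ₘ (X ^ k)) * (fr X ^ k)⁻¹) =
      (fr (q /ₘ (X ^ k)) : FF K) := by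
    conv_lhs => rw [← modByMonic_add_div q (X ^ k)]
    rw [map_add, map_mul, map_pow]
    have h4 : (q %ₘ (X ^ k) + X ^ k * (q /ₘ (X ^ k))) %ₘ (X ^ k) = q %ₘ (X ^ k) := by
      rw [modByMonic_add_div q (X ^ k)]
    rw [h4]
    field_simp
    ring
  rwa [e] at h3

include S hM hn hqm hqi hqn hdeg in
/-- Polynomials of degree at most `n`. -/
theorem QQ_small : ∀ (d : ℕ) (p : K[X]), p.natDegree = d → d ≤ n → QQ H x M q (fr p) := by
  intro d
  induction d using Nat.strong_induction_on with
  | _ d ih =>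
    intro p hp hd
    by_cases hp0 : p = 0
    · rw [hp0, map_zero]
      exact QQ_zero' S hM hn hqm hqi hqn hdeg
    set m := q /ₘ (X ^ (n - d)) with hm
    have hmon : (X ^ (n - d) : K[X]).Monic := monic_X_pow _
    have hmd : m.natDegree = d := by
      rw [hm, natDegree_divByMonic q hmon, natDegree_X_pow, hqn]
      omega
    have hmm : m.leadingCoeff = 1 := by
      have hle : (X ^ (n - d) : K[X]).degree ≤ q.degree := by
        rw [degree_X_pow, degree_eq_natDegree hqm.ne_zero, hqn]
        exact_mod_cast Nat.sub_le n d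
      rw [hm, leadingCoeff_divByMonic_of_monic hmon hle, hqm.leadingCoeff]
    have h1 := QQ_smul S hM p.leadingCoeff
      (QQ_part S hM hn hqm hqi hqn hdeg (n - d) (Nat.sub_le n d))
    rw [← map_mul] at h1
    have hr : QQ H x M q (fr (p - C p.leadingCoeff * m)) := by
      by_cases h0 : p - C p.leadingCoeff * m = 0
      · rw [h0, map_zero]
        exact QQ_zero' S hM hn hqm hqi hqn hdeg
      have hlt : (p - C p.leadingCoeff * m).natDegree < d := by
        have hlc : p.leadingCoeff ≠ 0 := leadingCoeff_ne_zero.mpr hp0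
        have hm0 : m ≠ 0 := by
          intro h
          rw [h, leadingCoeff_zero] at hmm
          exact zero_ne_one hmm
        have hdeq : p.degree = (C p.leadingCoeff * m).degree := by
          rw [degree_C_mul hlc, degree_eq_natDegree hp0, degree_eq_natDegree hm0, hp, hmd]
        have h2 : (p - C p.leadingCoeff * m).degree < p.degree := by
          apply degree_sub_lt hdeq hp0
          rw [leadingCoeff_mul, leadingCoeff_C, hmm, mul_one]
        rw [degree_eq_natDegree hp0, hp] at h2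
        exact (natDegree_lt_iff_degree_lt h0).mpr h2
      exact ih _ hlt _ rfl (by omega)
    have h2 := QQ_add S hM h1 hr
    rw [← map_add] at h2
    have e : C p.leadingCoeff * m + (p - C p.leadingCoeff * m) = p := by ring
    rwa [e] at h2

include S hM hn hqm hqi hqn hdeg in
/-- All polynomials. -/
theorem QQ_all : ∀ (d : ℕ) (p : K[X]), p.natDegree = d → QQ H x M q (fr p) := by
  intro d
  induction d using Nat.strong_induction_on with
  | _ d ih =>
    intro p hp
    rcases Nat.lt_or_ge n d with hd | hd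
    · have h1 := QQ_mulq S hM hn hqm hqi hqn hdeg 0 (by omega)
        (ih (p /ₘ q).natDegree (by rw [natDegree_divByMonic p hqm, hqn, hp]; omega) _ rfl)
      have h2 := QQ_small S hM hn hqm hqi hqn hdeg _ (p %ₘ q) rfl (by
        have hq1 : q ≠ 1 := by
          rintro rfl
          rw [natDegree_one] at hqn
          omega
        have := natDegree_modByMonic_lt p hqm hq1
        omega)
      have h3 := QQ_add S hM h1 h2
      have e : fr q * (fr X ^ 0)⁻¹ * fr (p /ₘ q) + fr (p %ₘ q) = (fr p : FF K) := by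
        rw [pow_zero, _root_.inv_one, mul_one, ← map_mul, ← map_add, add_comm, modByMonic_add_div]
      rwa [e] at h3
    · exact QQ_small S hM hn hqm hqi hqn hdeg d p hp hd

include S hM hn hqm hqi hqn hdeg in
/-- The multiplication rule for the products with a new irreducible polynomial. -/
theorem corr_new {k : K[X]} (hk : k ∈ M) (g : K[X]) :
    H.U (psi K H x (k * q)) (psi K H x g) = psi K H x ((k * q) ^ 2 * g) := by
  have h1 := (QQ_all S hM hn hqm hqi hqn hdeg _ (k * g) rfl).2 (fr k) (inW_fr hk)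
  have hk0 : fr k ≠ 0 := fr_ne (ne_of_mem hM hk)
  have e : (fr k)⁻¹ * fr (k * g) = (fr g : FF K) := by
    rw [map_mul]
    field_simp
  rw [e] at h1
  unfold Hh at h1
  rw [← map_mul, ← map_mul, ← map_mul, iot_fr S hM, iot_fr S hM, iot_fr S hM] at h1
  rw [h1, sq]

end Pool.Agent.HuaTwoP96
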