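import Mathlib
import Pool.Agent.HuaTwoP96.Fill

/-!
Two points of a Hua system, any field of scalars: the multiplication rule for all polynomials.
-/

set_option autoImplicit false

open Polynomial

namespace Pool.Agent.HuaTwoP96

open Pool.Agent.HuaTop84 Pool.Agent.HuaVal Pool.Agent.HuaOne84 Pool.Agent.HuaOne84.HS

variable {A : Type} [AddCommGroup A] {H : HS A}
variable {K : Type} [Field K] [Module K A]
variable {x : A}

/-- The facts about polynomials in `x` which give the field. -/
structure Two (K : Type) [Field K] {A : Type} [AddCommGroup A] [Module K A] (H : HS A)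
    (x : A) : Prop where
  scal : H.Scal K
  mul_zero : ∀ g f : K[X], psi K H x f = 0 → psi K H x (g * f) = 0
  corr : ∀ f g : K[X], H.U (psi K H x f) (psi K H x g) = psi K H x (f ^ 2 * g)

/-- The products of linear polynomials. -/
def M0 (K : Type) [Field K] : Submonoid K[X] where
  carrier := {f | ∃ (c : K) (s : Multiset K), c ≠ 0 ∧ f = C c * (s.map (fun r => X - C r)).prod}
  one_mem' := ⟨1, 0, one_ne_zero, by simp⟩
  mul_mem' := by
    rintro f g ⟨c, s, hc, rfl⟩ ⟨d, t, hd, rfl⟩
    refine ⟨c * d, s + t, mul_ne_zero hc hd, ?_⟩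
    rw [Multiset.map_add, Multiset.prod_add, C_mul]
    ring

theorem zero_U (z : A) : H.U 0 z = 0 := by rw [H.U_zero]; rfl

variable (S : H.Scal K) (hx : ∀ s : K, x - s • H.one ≠ 0)

include S hx in
theorem good_M0 (b : K[X]) (hb : b ∈ M0 K) : Good K H x b := by
  obtain ⟨c, s, hc, rfl⟩ := hb
  exact good_smul S (good_prod S hx _ s rfl) hc

/-- The multiples `k q ^ j`. -/
def Mq (M : Submonoid K[X]) (q : K[X]) : Submonoid K[X] where
  carrier := {f | ∃ k ∈ M, ∃ j : ℕ, f = k * q ^ j}
  one_mem' := ⟨1, M.one_mem, 0, by simp⟩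
  mul_mem' := by
    rintro f g ⟨c, hc, s, rfl⟩ ⟨d, hd, t, rfl⟩
    exact ⟨c * d, M.mul_mem hc hd, s + t, by rw [pow_add]; ring⟩

include S hx in
theorem exists_max : ∃ M : Submonoid K[X], M0 K ≤ M ∧ (∀ b ∈ M, Good K H x b) ∧
    ∀ M' : Submonoid K[X], M ≤ M' → (∀ b ∈ M', Good K H x b) → M' ≤ M := by
  obtain ⟨M, h1, h2⟩ := zorn_le_nonempty₀ {M : Submonoid K[X] | ∀ b ∈ M, Good K H x b}
    (by
      intro c hc hchain y hy
      refine ⟨sSup c, ?_, fun z hz => le_sSup hz⟩
      intro b hb
      rw [Submonoid.mem_sSup_of_directedOn ⟨y, hy⟩ hchain.directedOn] at hb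
      obtain ⟨s, hs, hbs⟩ := hb
      exact hc hs b hbs) (M0 K) (good_M0 S hx)
  exact ⟨M, h1, h2.1, fun M' hM' hg => h2.2 hg hM'⟩

include S hx in
/-- The two facts for an element outside of the scalars. -/
theorem two_of : Two K H x := by
  obtain ⟨M, hM0, hM, hmax⟩ := exists_max S hx
  have hone : psi K H x (1 : K[X]) ≠ 0 := by rw [psi_one]; exact H.one_ne
  by_cases hall : ∀ f : K[X], f ≠ 0 → f ∈ M
  · refine ⟨S, fun g f hf => ?_, fun f g => ?_⟩
    · by_cases h0 : f = 0
      · rw [h0, MulZeroClass.mul_zero, map_zero]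
      · exact absurd hf (hM f (hall f h0)).1
    · by_cases h0 : f = 0
      · rw [h0, map_zero, zero_U, zero_pow two_ne_zero, MulZeroClass.zero_mul, map_zero]
      · exact (hM f (hall f h0)).2 g
  -- an element of least degree outside of `M`
  push Not at hall
  obtain ⟨n, ⟨f, hf0, hfM, hfn⟩, hmin⟩ : ∃ n : ℕ, (∃ f : K[X], f ≠ 0 ∧ f ∉ M ∧ f.natDegree = n) ∧
      ∀ m < n, ¬ ∃ f : K[X], f ≠ 0 ∧ f ∉ M ∧ f.natDegree = m := by
    classical
    obtain ⟨f, hf0, hfM⟩ := hall
    have hex : ∃ n : ℕ, ∃ f : K[X], f ≠ 0 ∧ f ∉ M ∧ f.natDegree = n := ⟨_, f, hf0, hfM, rfl⟩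
    exact ⟨Nat.find hex, Nat.find_spec hex, fun m hm => Nat.find_min hex hm⟩
  have hdeg : ∀ g : K[X], g ≠ 0 → g.natDegree < n → g ∈ M := by
    intro g hg hgn
    by_contra hgM
    exact hmin _ hgn ⟨g, hg, hgM, rfl⟩
  have hCM : ∀ c : K, c ≠ 0 → (C c : K[X]) ∈ M := by
    intro c hc
    exact hM0 ⟨c, 0, hc, by simp⟩
  have hn : 2 ≤ n := by
    by_contra hlt
    apply hfM
    apply hM0
    have h1 : f.natDegree ≤ 1 := by omega
    obtain ⟨a, b, rfl⟩ := exists_eq_X_add_C_of_natDegree_le_one h1
    by_cases ha : a = 0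
    · subst ha
      rw [C_0, MulZeroClass.zero_mul, zero_add] at hf0 ⊢
      exact ⟨b, 0, by rwa [Ne, C_eq_zero] at hf0, by simp⟩
    · refine ⟨a, {-(b / a)}, ha, ?_⟩
      rw [Multiset.map_singleton, Multiset.prod_singleton, C_neg, sub_neg_eq_add, mul_add,
        ← C_mul, mul_div_cancel₀ _ ha]
  -- make it monic
  set q : K[X] := f * C f.leadingCoeff⁻¹ with hq
  have hlc : f.leadingCoeff ≠ 0 := leadingCoeff_ne_zero.mpr hf0
  have hqm : q.Monic := monic_mul_leadingCoeff_inv hf0
  have hqn : q.natDegree = n := by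
    rw [hq, natDegree_mul_C (inv_ne_zero hlc), hfn]
  have hqM : q ∉ M := by
    intro h
    apply hfM
    have h1 := M.mul_mem h (hCM _ hlc)
    rw [hq, mul_assoc, ← C_mul, inv_mul_cancel₀ hlc, C_1, mul_one] at h1
    exact h1
  have hqi : Irreducible q := by
    refine ⟨?_, ?_⟩
    · intro hu
      have := natDegree_eq_zero_of_isUnit hu
      omega
    · intro a b hab
      by_contra hcon
      push Not at hcon
      have ha0 : a ≠ 0 := by
        rintro rfl
        rw [MulZeroClass.zero_mul] at hab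
        exact hqm.ne_zero hab
      have hb0 : b ≠ 0 := by
        rintro rfl
        rw [MulZeroClass.mul_zero] at hab
        exact hqm.ne_zero hab
      have hda : a.natDegree ≠ 0 := fun h => hcon.1 (isUnit_iff_degree_eq_zero.mpr (by
        rw [degree_eq_natDegree ha0, h]; rfl))
      have hdb : b.natDegree ≠ 0 := fun h => hcon.2 (isUnit_iff_degree_eq_zero.mpr (by
        rw [degree_eq_natDegree hb0, h]; rfl))
      have hsum : a.natDegree + b.natDegree = n := by
        rw [← natDegree_mul ha0 hb0, ← hab, hqn]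
      apply hqM
      rw [hab]
      exact M.mul_mem (hdeg a ha0 (by omega)) (hdeg b hb0 (by omega))
  have hnew : ∀ k ∈ M, ∀ g : K[X],
      H.U (psi K H x (k * q)) (psi K H x g) = psi K H x ((k * q) ^ 2 * g) :=
    fun k hk g => corr_new S hM hn hqm hqi hqn hdeg hk g
  have hq1 : ∀ g : K[X], H.U (psi K H x q) (psi K H x g) = psi K H x (q ^ 2 * g) := by
    intro g
    have := hnew 1 M.one_mem g
    rwa [one_mul] at this
  have hq0 : psi K H x q = 0 := by
    by_contra hne
    have hgq : Good K H x q := ⟨hne, hq1⟩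
    have hk1 : ∀ k ∈ M, Good K H x (k * q) := by
      intro k hk
      refine ⟨?_, hnew k hk⟩
      intro h0
      have h1 := hnew k hk 1
      rw [h0, zero_U] at h1
      have e : (k * q) ^ 2 * 1 = k ^ 2 * (q ^ 2 * 1) := by ring
      rw [e, ← (hM k hk).2, ← hq1] at h1
      exact hone (H.U_inj hne (H.U_inj (hM k hk).1 h1.symm))
    have hkj : ∀ (j : ℕ), ∀ k ∈ M, Good K H x (k * q ^ j) := by
      intro j
      induction j using Nat.twoStepInduction with
      | zero => intro k hk; rw [pow_zero, mul_one]; exact hM k hk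
      | one => intro k hk; rw [pow_one]; exact hk1 k hk
      | more j ih _ =>
        intro k hk
        have h1 := good_sq hgq (ih k hk)
        have e : q ^ 2 * (k * q ^ j) = k * q ^ (j + 2) := by ring
        rwa [e] at h1
    have hle := hmax (Mq M q) (fun k hk => ⟨k, hk, 0, by simp⟩) (by
      rintro b ⟨k, hk, j, rfl⟩
      exact hkj j k hk)
    exact hqM (hle ⟨1, M.one_mem, 1, by simp⟩)
  -- the case of a finite extension
  have hqq : ∀ g : K[X], psi K H x (q ^ 2 * g) = 0 := by
    intro g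
    rw [← hq1, hq0, zero_U]
  have hkq : ∀ k ∈ M, psi K H x (k * q) = 0 := by
    intro k hk
    by_contra hne
    have h1 := hnew k hk 1
    have e : (k * q) ^ 2 * 1 = k ^ 2 * (q ^ 2 * 1) := by ring
    rw [e, ← (hM k hk).2, hqq, map_zero] at h1
    exact hone (H.U_inj hne h1)
  have hmul : ∀ g : K[X], psi K H x (q * g) = 0 := by
    intro g
    have e : q * g = q ^ 2 * (g /ₘ q) + (g %ₘ q) * q := by
      conv_lhs => rw [← modByMonic_add_div g q]
      ring
    rw [e, map_add, hqq, zero_add]
    by_cases h0 : g %ₘ q = 0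
    · rw [h0, MulZeroClass.zero_mul, map_zero]
    · apply hkq
      apply hdeg _ h0
      have hq1 : q ≠ 1 := by
        intro h
        rw [h, natDegree_one] at hqn
        omega
      have := natDegree_modByMonic_lt g hqm hq1
      omega
  have hrem : ∀ g : K[X], psi K H x g = psi K H x (g %ₘ q) := by
    intro g
    conv_lhs => rw [← modByMonic_add_div g q]
    rw [map_add, hmul, add_zero]
  have hremM : ∀ g : K[X], g %ₘ q ≠ 0 → g %ₘ q ∈ M := by
    intro g h0
    apply hdeg _ h0
    have hq1 : q ≠ 1 := by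
      intro h
      rw [h, natDegree_one] at hqn
      omega
    have := natDegree_modByMonic_lt g hqm hq1
    omega
  refine ⟨S, fun g f hf => ?_, fun f g => ?_⟩
  · have h0 : f %ₘ q = 0 := by
      by_contra h0
      rw [hrem] at hf
      exact (hM _ (hremM f h0)).1 hf
    have e : g * f = q * (g * (f /ₘ q)) := by
      conv_lhs => rw [← modByMonic_add_div f q, h0]
      ring
    rw [e, hmul]
  · by_cases h0 : f %ₘ q = 0
    · have e : f ^ 2 * g = q * (f * (f /ₘ q) * g) := by
        have e1 : f = q * (f /ₘ q) := by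
          conv_lhs => rw [← modByMonic_add_div f q, h0, zero_add]
        calc f ^ 2 * g = f * f * g := by ring
          _ = f * (q * (f /ₘ q)) * g := by rw [← e1]
          _ = _ := by ring
      rw [hrem f, h0, map_zero, zero_U, e, hmul]
    · have e : f ^ 2 * g = (f %ₘ q) ^ 2 * g +
          q * ((2 * (f %ₘ q) + q * (f /ₘ q)) * (f /ₘ q) * g) := by
        have e1 := modByMonic_add_div f q
        calc f ^ 2 * g = (f %ₘ q + q * (f /ₘ q)) ^ 2 * g := by rw [e1]
          _ = _ := by ring
      rw [hrem f, (hM _ (hremM f h0)).2, e, map_add, hmul, add_zero]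

end Pool.Agent.HuaTwoP96
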