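import Mathlib
import Pool.Agent.HuaTwoP96.Field

/-!
Scalars of a Hua system on a group of prime exponent.
-/

set_option autoImplicit false

namespace Pool.Agent.HuaTwoP96

open Pool.Agent.HuaTop84 Pool.Agent.HuaVal Pool.Agent.HuaOne84 Pool.Agent.HuaOne84.HS

variable {A : Type} [AddCommGroup A] (H : HS A)

theorem U_nat (a : A) (n : ℕ) (z : A) : H.U a (n • z) = n • H.U a z := map_nsmul _ _ _

/-- `(n a)⁻¹ = n⁻¹ a⁻¹` in the form without division. -/
theorem inv_nsmul (a : A) : ∀ n : ℕ, n • a ≠ 0 → n • H.inv (n • a) = H.inv a := by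
  intro n
  induction n with
  | zero => intro h; exact absurd (zero_nsmul a) h
  | succ n ih =>
    intro hn
    have ha : a ≠ 0 := by
      rintro rfl
      exact hn (smul_zero _)
    by_cases h0 : n • a = 0
    · have e : (n + 1) • a = a := by rw [succ_nsmul, h0, zero_add]
      have e2 : n • H.inv a = 0 := by
        have h1 : H.U a (n • H.inv a) = 0 := by rw [U_nat, H.U_self, h0]
        exact H.U_inj ha h1
      rw [e, succ_nsmul, e2, zero_add]
    · have hne : n • a + a ≠ n • a := by
        intro h
        exact ha (by simpa using h)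
      have hna : (n + 1) • a = n • a + a := succ_nsmul a n
      rw [hna] at hn ⊢
      -- `U (n a + a) a⁻¹ = U (n a) a⁻¹ + 2 n a + a`
      have h2 := H.diff (n • a + a) (n • a) hne
      have e1 : n • a + a - n • a = a := by abel
      rw [e1] at h2
      have h3 : H.inv a = n • H.inv (n • a) := (ih h0).symm
      have h4 : H.U (n • a) (H.inv a) = n • n • a := by
        conv_lhs => rw [h3]
        rw [U_nat, H.U_self]
      rw [h4, sub_eq_iff_eq_add] at h2
      apply H.U_inj' hn
      rw [h2, U_nat, H.U_self]
      simp only [smul_add, add_smul, one_smul]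
      abel

/-- Scalars in the prime field. -/
theorem scal_zmod (p : ℕ) [Fact p.Prime] [Module (ZMod p) A] : H.Scal (ZMod p) where
  inv_smul := by
    intro t x ht
    by_cases hx : x = 0
    · subst hx; rw [smul_zero, H.inv_zero, smul_zero]
    have e : ∀ z : A, t • z = t.val • z := by
      intro z
      rw [← Nat.cast_smul_eq_nsmul (ZMod p) t.val z, ZMod.natCast_zmod_val]
    have h1 : t.val • x ≠ 0 := by rw [← e]; exact smul_ne_zero ht hx
    have h2 := inv_nsmul H x t.val h1
    rw [← e, ← e] at h2
    rw [← h2, smul_smul, inv_mul_cancel₀ ht, one_smul]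
  U_smul := by
    intro a t x
    have e : ∀ z : A, t • z = t.val • z := by
      intro z
      rw [← Nat.cast_smul_eq_nsmul (ZMod p) t.val z, ZMod.natCast_zmod_val]
    rw [e, e, U_nat]

end Pool.Agent.HuaTwoP96
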